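import Mathlib
import Pool.Agent.Lib.Sieve.PairSieve
import Pool.Agent.Lib.Sieve.SingularAverage
import Pool.Agent.Lib.MP_5d7b92_nt.Final

/-!
# Almost a positive proportion of the integers `n` satisfy the assertion

There are constants `c, C > 0` such that for all large `X` and all `Y` with
`C log X (log log X)^2 ≤ Y ≤ X`, at least `c X / log log log Y` of the integers `n ≤ X` have at
least `c Y / ((log Y)^2 log X)` primes `p ≤ Y`, `p < 2n`, with `π(p)` and `2n - p` both prime.

The proof is a second moment argument.  The inputs are Chebyshev's bounds, Selberg's upper bound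
sieve for prime pairs `p, p + d` uniformly in `d`, and an upper bound for the average of the
singular series `d/φ(d)` over the differences of an arbitrary set of `≫ Y/(log Y)^2` integers
up to `Y`.
-/

namespace Pool.Agent.Lib.MP_5d7b92_nt.Shelf.AlmostPositiveProportion

open Pool.Agent.Lib.MP_5d7b92_nt

/-- Many `n ≤ X` have many primes `p ≤ Y` with `π(p)` and `2n - p` prime. -/
theorem result : ∃ c C : ℝ, 0 < c ∧ 0 < C ∧ ∃ X₀ : ℕ, ∀ X Y : ℕ, X₀ ≤ X → Y ≤ X →
    C * Real.log X * (Real.log (Real.log X)) ^ 2 ≤ Y →
    c * X / Real.log (Real.log (Real.log Y)) ≤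
      (((Finset.Icc 1 X).filter (fun n =>
        c * Y / ((Real.log Y) ^ 2 * Real.log X) ≤
          (((Finset.Icc 1 Y).filter (fun p => p.Prime ∧ (Nat.primeCounting p).Prime ∧ p < 2 * n ∧
            (2 * n - p).Prime)).card : ℝ))).card : ℝ) :=
  main_of Pool.Agent.Lib.Sieve.pair_sieve Pool.Agent.Lib.Sieve.singular_average

end Pool.Agent.Lib.MP_5d7b92_nt.Shelf.AlmostPositiveProportion
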