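import Pool.Agent.Lib.SW.LG4

/-!
# How many `n` are reached by a thin set of primes: the exact extremal order

Among all sets `S` of primes up to `2X` with at least `Y / (log Y)^K` elements up to `Y` for all
`√X ≤ Y ≤ 2X` (`K ≥ 2` fixed), the least number of `n ≤ X` for which `2n - s` is prime for some
`s ∈ S` is `(2 e^(-γ) + o(1)) X / log log log X`.  The prime-indexed primes, and the iterated
prime-indexed primes, are such sets.
-/

open Finset

namespace Pool.Agent.Results.MP_5d7b92_nt.ExactExtremalCount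

/-- `S` is a set of primes up to `2X` with at least `Y / (log Y)^K` elements up to `Y`, for all
`√X ≤ Y ≤ 2X`. -/
def Dense (K X : ℕ) (S : Finset ℕ) : Prop :=
  (∀ s ∈ S, s.Prime ∧ s ≤ 2 * X) ∧
  ∀ Y : ℕ, Real.sqrt X ≤ Y → Y ≤ 2 * X →
    Y / (Real.log Y) ^ K ≤ ((S.filter (fun s => s ≤ Y)).card : ℝ)

/-- The number of `n ≤ X` such that `2n - s` is prime for some `s ∈ S`. -/
def sumCount (X : ℕ) (S : Finset ℕ) : ℕ :=
  ((Icc 1 X).filter (fun n => ∃ s ∈ S, s < 2 * n ∧ (2 * n - s).Prime)).card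

/-- The primes (`j = 0`), the prime-indexed primes (`j = 1`), and so on: `p` belongs to the
`(j+1)`-st class if `p` is prime and `π(p)` belongs to the `j`-th class. -/
def Indexed : ℕ → ℕ → Prop
  | 0, p => p.Prime
  | j + 1, p => p.Prime ∧ Indexed j (Nat.primeCounting p)

open Pool.Agent.Lib.SW

theorem Indexed_iff : ∀ j p : ℕ, Indexed j p ↔ PI j p
  | 0, _ => Iff.rfl
  | j + 1, p => by
      show p.Prime ∧ Indexed j (Nat.primeCounting p) ↔ p.Prime ∧ PI j (Nat.primeCounting p)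
      rw [Indexed_iff j]

open Classical in
theorem result :
    (∀ K : ℕ, 2 ≤ K → ∀ ε : ℝ, 0 < ε → ∃ X₀ : ℕ, ∀ X : ℕ, X₀ ≤ X →
      (∀ S : Finset ℕ, Dense K X S →
        (2 * Real.exp (-Real.eulerMascheroniConstant) - ε) * X /
          Real.log (Real.log (Real.log X)) ≤ (sumCount X S : ℝ)) ∧
      ∃ S : Finset ℕ, Dense K X S ∧
        (sumCount X S : ℝ) ≤ (2 * Real.exp (-Real.eulerMascheroniConstant) + ε) * X /
          Real.log (Real.log (Real.log X))) ∧
    (∀ (j : ℕ) (ε : ℝ), 0 < ε → ∃ X₀ : ℕ, ∀ X : ℕ, X₀ ≤ X →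
      Dense (2 * j + 3) X ((Icc 1 (2 * X)).filter (Indexed j)) ∧
      (2 * Real.exp (-Real.eulerMascheroniConstant) - ε) * X /
          Real.log (Real.log (Real.log X)) ≤
        (((Icc 1 X).filter (fun n => ∃ p : ℕ, p < 2 * n ∧ Indexed j p ∧
          (2 * n - p).Prime)).card : ℝ)) := by
  have hlog : ∀ X : ℕ, 9 ≤ X → ∀ Y : ℕ, Real.sqrt X ≤ Y → 1 ≤ Real.log Y := by
    intro X hX Y hY
    have h1 : (3 : ℝ) ≤ Real.sqrt X := by
      apply Real.le_sqrt_of_sq_le
      have : (9 : ℝ) ≤ X := by exact_mod_cast hX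
      linarith
    have h2 : (3 : ℝ) ≤ Y := h1.trans hY
    rw [Real.le_log_iff_exp_le (by linarith)]
    have := Real.exp_one_lt_d9
    linarith
  refine ⟨?_, ?_⟩
  · intro K hK ε hε
    obtain ⟨X₁, h1⟩ := gen_lower K ε hε
    obtain ⟨X₂, h2⟩ := sharp ε hε
    refine ⟨max (max X₁ X₂) 9, fun X hX => ⟨?_, ?_⟩⟩
    · intro S hS
      have h3 := h1 X ((le_max_left _ _).trans ((le_max_left _ _).trans hX)) S
        (fun s hs => (hS.1 s hs).1) hS.2
      refine h3.trans (Nat.cast_le.2 (le_of_eq ?_))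
      unfold sumCount
      congr 1
    · obtain ⟨S, hS1, hS2, hS3⟩ := h2 X ((le_max_right _ _).trans ((le_max_left _ _).trans hX))
      refine ⟨S, ⟨hS1, fun Y hY1 hY2 => ?_⟩, ?_⟩
      · have h4 := hlog X ((le_max_right _ _).trans hX) Y hY1
        refine le_trans ?_ (hS2 Y hY1 hY2)
        exact div_le_div_of_nonneg_left (Nat.cast_nonneg _) (by positivity)
          (pow_le_pow_right₀ h4 hK)
      · refine le_trans (Nat.cast_le.2 (le_of_eq ?_)) hS3
        unfold sumCount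
        congr 1
  · intro j ε hε
    obtain ⟨X₁, h1⟩ := iter_lower j ε hε
    obtain ⟨X₂, h2⟩ := PI_count j
    refine ⟨max X₁ (X₂ ^ 2), fun X hX => ⟨⟨?_, ?_⟩, ?_⟩⟩
    · intro s hs
      obtain ⟨hs1, hs2⟩ := mem_filter.1 hs
      exact ⟨PI_prime j s ((Indexed_iff j s).1 hs2), (mem_Icc.1 hs1).2⟩
    · intro Y hY1 hY2
      have h3 : X₂ ≤ Y := by
        have h4 : (X₂ : ℝ) ≤ Real.sqrt X := by
          apply Real.le_sqrt_of_sq_le
          exact_mod_cast (le_max_right _ _).trans hX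
        exact_mod_cast h4.trans hY1
      refine (h2 Y h3).trans (Nat.cast_le.2 (card_le_card ?_))
      intro p hp
      obtain ⟨hp1, hp2⟩ := mem_filter.1 hp
      obtain ⟨hp3, hp4⟩ := mem_Icc.1 hp1
      exact mem_filter.2 ⟨mem_filter.2 ⟨mem_Icc.2 ⟨hp3, hp4.trans hY2⟩,
        (Indexed_iff j p).2 hp2⟩, hp4⟩
    · refine (h1 X ((le_max_left _ _).trans hX)).trans ?_
      norm_cast
      refine Finset.card_le_card ?_
      intro n hn
      rw [Finset.mem_filter] at hn ⊢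
      obtain ⟨hn1, p, hp1, hp2, hp3, _⟩ := hn
      exact ⟨hn1, p, Finset.mem_range.mp hp1, (Indexed_iff j p).mpr hp2, hp3⟩

end Pool.Agent.Results.MP_5d7b92_nt.ExactExtremalCount
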