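import Pool.Agent.Lib.MP_5d7b92_nt.UA.EX5
import Pool.Agent.Lib.MP_5d7b92_nt.UA.EX6
import Pool.Agent.Lib.MP_5d7b92_nt.SS.LogScale

/-!
# The exact proportion of the `n` with `2 n = p + d q`, `d ≤ D`, for thin sets of primes `p`

Let `S` be a set of primes up to `2X` with at least `Y / (log Y)^K` elements up to `Y` for all
`√X ≤ Y ≤ 2X`; the prime-indexed primes are such a set.  How many `n ≤ X` can be written as
`2 n = s + d q` with `s ∈ S`, `q` prime and a cofactor `d ≤ D`?  For all `1 ≤ D ≤ (log X)^(1/2)` at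
once the answer in the worst case is `(1 + o(1)) g(X, D) X`, where

`g(X, D) = ∏_{3 ≤ p ≤ loglog X} (1 - 1/p) · ∑_{d ≤ D odd, all prime factors ≤ loglog X} 1/d`

is the density of the odd integers whose largest divisor composed of primes `≤ loglog X` is `≤ D`.
For `D = (log log X)^C`, `0 < C ≤ 1`, this is `C e^(-γ) + o(1)`: a positive proportion.

The iterated prime-indexed primes are dense at all scales, and the primes `p` of size about `log X`
give more: `≥ c (1 + log D) X / log₄ X` of the `n ≤ X` for `1 ≤ D ≤ log₃ X`.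
-/

open Finset

namespace Pool.Agent.Lib.MP_5d7b92_nt.Shelf.ExactProportion

/-- `S` is a set of primes up to `2X` with at least `Y / (log Y)^K` elements up to `Y`, for all
`√X ≤ Y ≤ 2X`. -/
def Dense (K X : ℕ) (S : Finset ℕ) : Prop :=
  (∀ s ∈ S, s.Prime ∧ s ≤ 2 * X) ∧
  ∀ Y : ℕ, Real.sqrt X ≤ Y → Y ≤ 2 * X →
    Y / (Real.log Y) ^ K ≤ ((S.filter (fun s => s ≤ Y)).card : ℝ)

open Classical in
/-- The number of `n ≤ X` with `2 n = s + d q` for some `s ∈ S`, some integer `1 ≤ d ≤ D` and some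
prime `q`. -/
noncomputable def sumCount (X : ℕ) (D : ℝ) (S : Finset ℕ) : ℕ :=
  ((Icc 1 X).filter (fun n => ∃ s ∈ S, ∃ d q : ℕ, 1 ≤ d ∧ (d : ℝ) ≤ D ∧ q.Prime ∧
    2 * n = s + d * q)).card

open Classical in
/-- `g(X, D)`: the product of `1 - 1/p` over the primes `3 ≤ p ≤ loglog X`, times the sum of `1/d`
over the odd `d ≤ D` all of whose prime factors are `≤ loglog X`. -/
noncomputable def g (X : ℕ) (D : ℝ) : ℝ :=
  (∏ p ∈ (Icc 3 ⌊Real.log (Real.log X)⌋₊).filter Nat.Prime, (1 - 1 / (p : ℝ))) *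
  ∑ d ∈ (Icc 1 ⌊D⌋₊).filter (fun d => Odd d ∧
    ∀ p : ℕ, p.Prime → p ∣ d → (p : ℝ) ≤ Real.log (Real.log X)), 1 / (d : ℝ)

/-- The primes (`j = 0`), the prime-indexed primes (`j = 1`), and so on: `p` belongs to the
`(j+1)`-st class if `p` is prime and `π(p)` belongs to the `j`-th class. -/
def Indexed : ℕ → ℕ → Prop
  | 0, p => p.Prime
  | j + 1, p => p.Prime ∧ Indexed j (Nat.primeCounting p)

open Pool.Agent.Lib.SW Pool.Agent.Lib.MP_5d7b92_nt.UA

theorem Indexed_iff : ∀ j p : ℕ, Indexed j p ↔ PI j p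
  | 0, _ => Iff.rfl
  | j + 1, p => by
      show p.Prime ∧ Indexed j (Nat.primeCounting p) ↔ p.Prime ∧ PI j (Nat.primeCounting p)
      rw [Indexed_iff j]

theorem sumCount_eq (X : ℕ) (D : ℝ) (S : Finset ℕ) : sumCount X D S = (supC D X S).card := by
  unfold sumCount supC
  rfl

theorem g_eq (X : ℕ) (D : ℝ) (hX : 2 ≤ Real.log (Real.log X)) : g X D = gX X D := by
  have hw : 2 ≤ wX X := by
    unfold wX
    apply Nat.le_floor
    exact_mod_cast hX
  unfold g gX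
  rw [two_div_cW _ hw]
  congr 1
  apply Finset.sum_congr _ fun _ _ => rfl
  unfold SmO
  ext d
  simp only [mem_filter, mem_Icc]
  constructor
  · rintro ⟨h1, h2, h3⟩
    refine ⟨h1, h2, fun p hp => ?_⟩
    unfold wX
    exact Nat.le_floor (h3 p (Nat.prime_of_mem_primeFactors hp) (Nat.dvd_of_mem_primeFactors hp))
  · rintro ⟨h1, h2, h3⟩
    refine ⟨h1, h2, fun p hp hpd => ?_⟩
    have h4 := h3 p (Nat.mem_primeFactors.2 ⟨hp, hpd, by omega⟩)
    have h5 : (wX X : ℝ) ≤ Real.log (Real.log X) := by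
      unfold wX
      exact Nat.floor_le (by linarith)
    have h6 : (p : ℝ) ≤ wX X := by exact_mod_cast h4
    exact h6.trans h5

theorem log_ge (X : ℕ) (hX : 9 ≤ X) (Y : ℕ) (hY : Real.sqrt X ≤ Y) : 1 ≤ Real.log Y := by
  have h1 : (3 : ℝ) ≤ Real.sqrt X := by
    apply Real.le_sqrt_of_sq_le
    have : (9 : ℝ) ≤ X := by exact_mod_cast hX
    linarith
  have h2 : (3 : ℝ) ≤ Y := h1.trans hY
  rw [Real.le_log_iff_exp_le (by linarith)]
  have := Real.exp_one_lt_d9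
  linarith

/-- the classes of iterated prime-indexed primes are dense in the sense above -/
theorem Indexed_dense (j : ℕ) : ∃ X₀ : ℕ, ∀ X : ℕ, X₀ ≤ X → ∀ S : Finset ℕ,
    (∀ p, p ∈ S ↔ p ∈ Icc 1 (2 * X) ∧ Indexed j p) → Dense (2 * j + 3) X S := by
  obtain ⟨X₂, h2⟩ := PI_count j
  refine ⟨X₂ ^ 2, fun X hX S hS => ⟨?_, ?_⟩⟩
  · intro s hs
    obtain ⟨hs1, hs2⟩ := (hS s).1 hs
    exact ⟨PI_prime j s ((Indexed_iff j s).1 hs2), (mem_Icc.1 hs1).2⟩
  · intro Y hY1 hY2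
    have h3 : X₂ ≤ Y := by
      have h4 : (X₂ : ℝ) ≤ Real.sqrt X := by
        apply Real.le_sqrt_of_sq_le
        exact_mod_cast hX
      exact_mod_cast h4.trans hY1
    refine (h2 Y h3).trans (Nat.cast_le.2 (card_le_card ?_))
    intro p hp
    obtain ⟨hp1, hp2⟩ := mem_filter.1 hp
    obtain ⟨hp3, hp4⟩ := mem_Icc.1 hp1
    exact mem_filter.2 ⟨(hS p).2 ⟨mem_Icc.2 ⟨hp3, hp4.trans hY2⟩, (Indexed_iff j p).2 hp2⟩, hp4⟩

theorem lower (K : ℕ) (ε : ℝ) (hε : 0 < ε) : ∃ X₀ : ℕ, ∀ X : ℕ, X₀ ≤ X →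
    ∀ S : Finset ℕ, Dense K X S → ∀ D : ℝ, 1 ≤ D → D ≤ Real.sqrt (Real.log X) →
      (1 - ε) * g X D * X ≤ (sumCount X D S : ℝ) := by
  obtain ⟨X₁, h1⟩ := lower_uniform K ε hε
  obtain ⟨X₂, h2⟩ := Filter.eventually_atTop.1 (LG3_loglog_ev 2)
  refine ⟨max X₁ X₂, fun X hX S hS D hD1 hD2 => ?_⟩
  rw [g_eq X D (h2 X ((le_max_right _ _).trans hX)), sumCount_eq, mul_assoc]
  exact h1 X ((le_max_left _ _).trans hX) S (fun s hs => (hS.1 s hs).1) hS.2 D hD1 hD2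

open Classical in
theorem lower_indexed (j : ℕ) (ε : ℝ) (hε : 0 < ε) : ∃ X₀ : ℕ, ∀ X : ℕ, X₀ ≤ X →
    ∀ D : ℝ, 1 ≤ D → D ≤ Real.sqrt (Real.log X) →
      (1 - ε) * g X D * X ≤ (((Icc 1 X).filter (fun n => ∃ p d q : ℕ, p < 2 * n ∧ Indexed j p ∧
        1 ≤ d ∧ (d : ℝ) ≤ D ∧ q.Prime ∧ 2 * n = p + d * q)).card : ℝ) := by
  obtain ⟨X₁, h1⟩ := lower (2 * j + 3) ε hε
  obtain ⟨X₂, h2⟩ := Indexed_dense j
  refine ⟨max X₁ X₂, fun X hX D hD1 hD2 => ?_⟩
  have h3 := h1 X ((le_max_left _ _).trans hX) ((Icc 1 (2 * X)).filter (Indexed j))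
    (h2 X ((le_max_right _ _).trans hX) _ (fun p => mem_filter)) D hD1 hD2
  refine h3.trans (Nat.cast_le.2 (card_le_card ?_))
  intro n hn
  rw [mem_filter] at hn ⊢
  obtain ⟨hn1, p, hp, d, q, hd1, hd2, hq, hn2⟩ := hn
  refine ⟨hn1, p, d, q, ?_, (mem_filter.1 hp).2, hd1, hd2, hq, hn2⟩
  have : 0 < d * q := Nat.mul_pos hd1 hq.pos
  omega

open Classical in
theorem result :
    -- the exact extremal count, uniformly in `D`
    (∀ (K : ℕ) (ε : ℝ), 2 ≤ K → 0 < ε → ∃ X₀ : ℕ, ∀ X : ℕ, X₀ ≤ X →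
      (∀ S : Finset ℕ, Dense K X S → ∀ D : ℝ, 1 ≤ D → D ≤ Real.sqrt (Real.log X) →
        (1 - ε) * g X D * X ≤ (sumCount X D S : ℝ)) ∧
      ∃ S : Finset ℕ, Dense K X S ∧ ∀ D : ℝ, 1 ≤ D → D ≤ Real.sqrt (Real.log X) →
        (sumCount X D S : ℝ) ≤ (1 + ε) * g X D * X) ∧
    -- the (iterated) prime-indexed primes
    (∀ (j : ℕ) (ε : ℝ), 0 < ε → ∃ X₀ : ℕ, ∀ X : ℕ, X₀ ≤ X →
      ∀ D : ℝ, 1 ≤ D → D ≤ Real.sqrt (Real.log X) →
        (1 - ε) * g X D * X ≤ (((Icc 1 X).filter (fun n => ∃ p d q : ℕ, p < 2 * n ∧ Indexed j p ∧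
          1 ≤ d ∧ (d : ℝ) ≤ D ∧ q.Prime ∧ 2 * n = p + d * q)).card : ℝ)) ∧
    -- the size of `g`
    Filter.Tendsto (fun X : ℕ => g X 1 * Real.log (Real.log (Real.log X))) Filter.atTop
      (nhds (2 * Real.exp (-Real.eulerMascheroniConstant))) ∧
    (∀ C : ℝ, 0 < C → C ≤ 1 → Filter.Tendsto (fun X : ℕ => g X ((Real.log (Real.log X)) ^ C))
      Filter.atTop (nhds (C * Real.exp (-Real.eulerMascheroniConstant)))) ∧
    -- a positive proportion of all `n`, with a cofactor `d ≤ (loglog n)^C`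
    (∀ (j : ℕ) (C ε : ℝ), 0 < C → C ≤ 1 → 0 < ε → ∃ X₀ : ℕ, ∀ X : ℕ, X₀ ≤ X →
      (C * Real.exp (-Real.eulerMascheroniConstant) - ε) * X ≤
        (((Icc 1 X).filter (fun n => ∃ p d q : ℕ, p < 2 * n ∧ Indexed j p ∧
          1 ≤ d ∧ (d : ℝ) ≤ (Real.log (Real.log X)) ^ C ∧ q.Prime ∧ 2 * n = p + d * q)).card
            : ℝ)) ∧
    -- primes `p` of size about `log X`
    (∀ j : ℕ, ∃ c C : ℝ, 0 < c ∧ 0 < C ∧ ∃ X₀ : ℕ, ∀ X D : ℕ, X₀ ≤ X → 1 ≤ D →
      (D : ℝ) ≤ Real.log (Real.log (Real.log X)) →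
      c * (1 + Real.log D) * X / Real.log (Real.log (Real.log (Real.log X))) ≤
        (((Icc 1 X).filter (fun n => ∃ p d q : ℕ, Indexed j p ∧
          (p : ℝ) ≤ C * Real.log X * (Real.log (Real.log X)) ^ (j + 1) ∧
          1 ≤ d ∧ d ≤ D ∧ q.Prime ∧ 2 * n = p + d * q)).card : ℝ)) := by
  have hev : ∀ᶠ X : ℕ in Filter.atTop, 2 ≤ Real.log (Real.log (X : ℝ)) := LG3_loglog_ev 2
  have hg1 : Filter.Tendsto (fun X : ℕ => g X 1 * Real.log (Real.log (Real.log X))) Filter.atTop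
      (nhds (2 * Real.exp (-Real.eulerMascheroniConstant))) := by
    refine gX_one.congr' ?_
    filter_upwards [hev] with X hX
    rw [g_eq X 1 hX]
  have hgC : ∀ C : ℝ, 0 < C → C ≤ 1 →
      Filter.Tendsto (fun X : ℕ => g X ((Real.log (Real.log X)) ^ C))
        Filter.atTop (nhds (C * Real.exp (-Real.eulerMascheroniConstant))) := by
    intro C hC hC1
    refine (gX_C C hC hC1).congr' ?_
    filter_upwards [hev] with X hX
    rw [g_eq X _ hX]
  refine ⟨?_, lower_indexed, hg1, hgC, ?_, ?_⟩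
  · intro K ε hK hε
    obtain ⟨X₁, h1⟩ := lower K ε hε
    obtain ⟨X₂, h2⟩ := upper_uniform ε hε
    obtain ⟨X₃, h3⟩ := Filter.eventually_atTop.1 hev
    refine ⟨max (max X₁ X₂) (max X₃ 9), fun X hX => ⟨?_, ?_⟩⟩
    · exact h1 X ((le_max_left _ _).trans ((le_max_left _ _).trans hX))
    · obtain ⟨S, hS1, hS2, hS3⟩ := h2 X ((le_max_right _ _).trans ((le_max_left _ _).trans hX))
      have hX3 := h3 X ((le_max_left _ _).trans ((le_max_right _ _).trans hX))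
      have hX9 : 9 ≤ X := (le_max_right _ _).trans ((le_max_right _ _).trans hX)
      refine ⟨S, ⟨hS1, fun Y hY1 hY2 => ?_⟩, ?_⟩
      · have h4 := log_ge X hX9 Y hY1
        refine le_trans ?_ (hS2 Y hY1 hY2)
        exact div_le_div_of_nonneg_left (Nat.cast_nonneg _) (by positivity)
          (pow_le_pow_right₀ h4 hK)
      · intro D hD1 hD2
        rw [g_eq X D hX3, sumCount_eq, mul_assoc]
        exact hS3 D hD1 hD2
  · intro j C ε hC hC1 hε
    obtain ⟨δ, hδ, hδ1, hδε⟩ : ∃ δ : ℝ, 0 < δ ∧ δ ≤ 1 ∧ 2 * δ ≤ ε :=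
      ⟨min 1 (ε / 2), lt_min one_pos (by linarith), min_le_left _ _, by
        have := min_le_right 1 (ε / 2)
        linarith⟩
    obtain ⟨X₁, h1⟩ := lower_indexed j δ hδ
    have hlow := (hgC C hC hC1).eventually_const_lt
      (show C * Real.exp (-Real.eulerMascheroniConstant) - δ <
        C * Real.exp (-Real.eulerMascheroniConstant) by linarith)
    have hLL : Filter.Tendsto (fun X : ℕ => Real.log (X : ℝ)) Filter.atTop Filter.atTop :=
      Real.tendsto_log_atTop.comp tendsto_natCast_atTop_atTop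
    have hsm : ∀ᶠ X : ℕ in Filter.atTop, Real.log (Real.log (X : ℝ)) ≤ √(Real.log X) := by
      have h2 := (isLittleO_log_rpow_atTop (show (0 : ℝ) < 1 / 2 by norm_num)).def one_pos
      have h3 := hLL.eventually (h2.and (Filter.eventually_ge_atTop 1))
      filter_upwards [h3] with X hX
      obtain ⟨hX1, hX2⟩ := hX
      rw [one_mul, Real.norm_of_nonneg (Real.log_nonneg hX2),
        Real.norm_of_nonneg (by positivity)] at hX1
      rw [Real.sqrt_eq_rpow]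
      exact hX1
    obtain ⟨X₂, h2⟩ := Filter.eventually_atTop.1 (hlow.and (hsm.and hev))
    refine ⟨max X₁ X₂, fun X hX => ?_⟩
    obtain ⟨k1, k2, k3⟩ := h2 X ((le_max_right _ _).trans hX)
    have hy1 : 1 ≤ Real.log (Real.log (X : ℝ)) := by linarith
    have hD1 : 1 ≤ Real.log (Real.log (X : ℝ)) ^ C := Real.one_le_rpow hy1 hC.le
    have hD2 : Real.log (Real.log (X : ℝ)) ^ C ≤ √(Real.log X) := by
      refine le_trans ?_ k2
      calc Real.log (Real.log (X : ℝ)) ^ C ≤ Real.log (Real.log (X : ℝ)) ^ (1 : ℝ) :=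
            Real.rpow_le_rpow_of_exponent_le hy1 hC1
        _ = Real.log (Real.log (X : ℝ)) := Real.rpow_one _
    refine le_trans ?_ (h1 X ((le_max_left _ _).trans hX) _ hD1 hD2)
    apply mul_le_mul_of_nonneg_right _ (Nat.cast_nonneg _)
    have hexp : Real.exp (-Real.eulerMascheroniConstant) ≤ 1 := LG3_gamma
    have hexp0 := Real.exp_pos (-Real.eulerMascheroniConstant)
    have hCe : C * Real.exp (-Real.eulerMascheroniConstant) ≤ 1 := by nlinarith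
    have h5 : (1 - δ) * (C * Real.exp (-Real.eulerMascheroniConstant) - δ) ≤
        (1 - δ) * g X (Real.log (Real.log (X : ℝ)) ^ C) :=
      mul_le_mul_of_nonneg_left k1.le (by linarith)
    nlinarith
  · intro j
    obtain ⟨c, C, hc, hC, X₀, h⟩ := Pool.Agent.Lib.MP_5d7b92_nt.SS.log_scale j
    refine ⟨c, C, hc, hC, X₀, fun X D hX hD1 hD => (h X D hX hD1 hD).trans
      (Nat.cast_le.2 (card_le_card ?_))⟩
    intro n hn
    rw [mem_filter] at hn ⊢
    obtain ⟨hn1, p, d, q, hp, h1⟩ := hn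
    exact ⟨hn1, p, d, q, (Indexed_iff j p).2 hp, h1⟩

end Pool.Agent.Lib.MP_5d7b92_nt.Shelf.ExactProportion
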