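import Pool.Agent.Lib.MT.Main

/-!
# MP_5d7b92: Goldbach representations with a condition on the index

For every set `S` of integers which meets every interval of `m` consecutive integers, almost all even
numbers `2n` are sums `p + q` of two primes with `π(p) ∈ S`.  Hence almost all `2n` are sums `p + q` of
two primes such that `π(p)` has no prime factor `≤ z(n)`, where `z(n) → ∞`.
-/

open Finset

namespace Pool.Agent.Lib.MP_5d7b92_nt.Shelf.IndexConditions

/-- `S` meets `{n + 1, ..., n + m}` for every `n ≤ Y` -/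
def Meets (m Y : ℕ) (S : Set ℕ) : Prop := ∀ n : ℕ, n ≤ Y → ∃ b ∈ S, n < b ∧ b ≤ n + m

open Classical in
/-- the number of primes `p < 2n` with `π(p) ∈ S` and `2n - p` prime -/
noncomputable def count (S : Set ℕ) (n : ℕ) : ℕ :=
  ((range (2 * n)).filter (fun p => p.Prime ∧ Nat.primeCounting p ∈ S ∧ (2 * n - p).Prime)).card

/-- `k` has no prime factor `≤ z` -/
def Rough (z k : ℕ) : Prop := ∀ q : ℕ, q.Prime → q ∣ k → z < q

private theorem log_two (X : ℕ) (hX : 2 ≤ X) :
    Real.log ((2 * X : ℕ) : ℝ) ≤ 2 * Real.log X ∧ Real.log X ≤ Real.log ((2 * X : ℕ) : ℝ) ∧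
      0 < Real.log X := by
  have h2 : (2 : ℝ) ≤ X := by exact_mod_cast hX
  have h3 : Real.log ((2 * X : ℕ) : ℝ) = Real.log 2 + Real.log X := by
    push_cast
    rw [Real.log_mul (by norm_num) (by linarith)]
  have h4 : Real.log 2 ≤ Real.log X := Real.log_le_log (by norm_num) h2
  have h5 : 0 < Real.log 2 := Real.log_pos (by norm_num)
  rw [h3]
  exact ⟨by linarith, by linarith, by linarith⟩

open Classical in
private theorem main (m A : ℕ) : ∃ C X₀ : ℕ, ∀ X : ℕ, X₀ ≤ X → ∀ S : Set ℕ, Meets m (2 * X) S →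
    (((Icc 1 X).filter (fun n => (count S n : ℝ) < X / (Real.log X) ^ C)).card : ℝ) ≤
      X / (Real.log X) ^ A := by
  rcases Nat.eq_zero_or_pos m with hm | hm
  · refine ⟨0, 0, fun X _ S hS => ?_⟩
    obtain ⟨b, -, h1, h2⟩ := hS 0 (Nat.zero_le _)
    omega
  obtain ⟨C, X₀, h⟩ := Pool.Agent.Lib.MT.goldbach_index m hm (A + 1)
  obtain ⟨X₁, hX₁⟩ : ∃ X₁ : ℕ, ∀ X : ℕ, X₁ ≤ X → 2 ≤ Real.log X ∧ (2 : ℝ) ^ C ≤ Real.log X := by
    have t1 : Filter.Tendsto (fun X : ℕ => Real.log (X : ℝ)) Filter.atTop Filter.atTop :=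
      Real.tendsto_log_atTop.comp tendsto_natCast_atTop_atTop
    exact Filter.eventually_atTop.mp ((t1.eventually_ge_atTop 2).and (t1.eventually_ge_atTop _))
  refine ⟨C + 1, max X₀ (max X₁ 2), fun X hX S hS => ?_⟩
  simp only [max_le_iff] at hX
  obtain ⟨hX0, hX1, hX2⟩ := hX
  obtain ⟨g1, g2⟩ := hX₁ X hX1
  obtain ⟨l1, l2, l3⟩ := log_two X hX2
  obtain ⟨L, hL⟩ : ∃ L : ℝ, L = Real.log X := ⟨_, rfl⟩
  obtain ⟨M, hM⟩ : ∃ M : ℝ, M = Real.log ((2 * X : ℕ) : ℝ) := ⟨_, rfl⟩
  have hXr : (0 : ℝ) ≤ X := Nat.cast_nonneg X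
  have hmain := h (2 * X) (by omega) (fun b => b ∈ S) (fun n hn => by
    obtain ⟨b, b1, b2, b3⟩ := hS n hn
    exact ⟨b, b2, b3, b1⟩)
  rw [← hM] at hmain l1 l2
  rw [← hL] at g1 g2 l1 l2 l3 ⊢
  have hM0 : 0 < M := by linarith
  have e1 : ((2 * X : ℕ) : ℝ) / M ^ (A + 1) ≤ X / L ^ A := by
    push_cast
    rw [div_le_div_iff₀ (by positivity) (by positivity)]
    have a1 : L ^ (A + 1) ≤ M ^ (A + 1) := pow_le_pow_left₀ l3.le l2 _
    calc 2 * (X : ℝ) * L ^ A ≤ L * X * L ^ A := by gcongr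
      _ = X * L ^ (A + 1) := by ring
      _ ≤ X * M ^ (A + 1) := by gcongr
  have e2 : (X : ℝ) / L ^ (C + 1) ≤ ((2 * X : ℕ) : ℝ) / M ^ C := by
    push_cast
    rw [div_le_div_iff₀ (by positivity) (by positivity)]
    have a1 : M ^ C ≤ (2 * L) ^ C := pow_le_pow_left₀ hM0.le l1 _
    calc (X : ℝ) * M ^ C ≤ X * (2 * L) ^ C := by gcongr
      _ = X * (2 ^ C * L ^ C) := by rw [mul_pow]
      _ ≤ X * (L * L ^ C) := by gcongr
      _ = X * L ^ (C + 1) := by ring
      _ ≤ 2 * X * L ^ (C + 1) := by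
        have : 0 ≤ X * L ^ (C + 1) := by positivity
        linarith
  refine le_trans ?_ (hmain.trans e1)
  rw [Nat.cast_le]
  apply card_le_card_of_injOn (fun n => 2 * n)
  · intro n hn
    rw [mem_coe, mem_filter, mem_Icc] at hn
    obtain ⟨⟨n1, n2⟩, n3⟩ := hn
    rw [mem_coe, mem_filter, mem_Icc]
    have q1 : 1 ≤ 2 * n := by omega
    have q2 : 2 * n ≤ 2 * X := by omega
    exact ⟨⟨q1, q2⟩, even_two_mul n, lt_of_lt_of_le n3 e2⟩
  · intro a _ b _ hab
    simp only at hab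
    omega

private theorem rough_meets (z Y : ℕ) : Meets (primorial z) Y {b | Rough z b} := by
  intro n _
  have hP := primorial_pos z
  refine ⟨primorial z * (n / primorial z) + 1 + (if n % primorial z = 0 then 0 else primorial z),
    ?_, ?_, ?_⟩
  · intro q hq hd
    by_contra hc
    rw [not_lt] at hc
    have h1 : q ∣ primorial z := (hq.dvd_primorial_iff).mpr hc
    have h2 : q ∣ 1 := by
      have h3 : q ∣ primorial z * (n / primorial z) := Dvd.dvd.mul_right h1 _
      split_ifs at hd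
      · rw [add_zero] at hd
        exact (Nat.dvd_add_right h3).mp hd
      · rw [Nat.dvd_add_left h1] at hd
        exact (Nat.dvd_add_right h3).mp hd
    exact hq.one_lt.ne' (Nat.dvd_one.mp h2)
  · have h1 := Nat.div_add_mod n (primorial z)
    have h2 := Nat.mod_lt n hP
    split_ifs with h
    · omega
    · omega
  · have h1 := Nat.div_add_mod n (primorial z)
    split_ifs with h
    · omega
    · omega

open Classical in
theorem result :
    (∀ m A : ℕ, ∃ C X₀ : ℕ, ∀ X : ℕ, X₀ ≤ X → ∀ S : Set ℕ, Meets m (2 * X) S →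
      (((Icc 1 X).filter (fun n => (count S n : ℝ) < X / (Real.log X) ^ C)).card : ℝ) ≤
        X / (Real.log X) ^ A) ∧
    (∃ z : ℕ → ℕ, Filter.Tendsto z Filter.atTop Filter.atTop ∧ ∀ A : ℕ, ∃ X₀ : ℕ, ∀ X : ℕ,
      X₀ ≤ X → (((Icc 1 X).filter (fun n => ¬ ∃ p : ℕ, p < 2 * n ∧ p.Prime ∧ (2 * n - p).Prime ∧
        Rough (z n) (Nat.primeCounting p))).card : ℝ) ≤ X / (Real.log X) ^ A) := by
  refine ⟨main, ?_⟩
  -- thresholds
  have h1 : ∀ j : ℕ, ∃ T : ℕ, ∀ X : ℕ, T ≤ X →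
      (((Icc 1 X).filter (fun n => count {b | Rough j b} n = 0)).card : ℝ) ≤
        X / (Real.log X) ^ j := by
    intro j
    obtain ⟨C, X₀, h⟩ := main (primorial j) j
    refine ⟨max X₀ 3, fun X hX => ?_⟩
    refine le_trans ?_ (h X (le_trans (le_max_left _ _) hX) _ (rough_meets j (2 * X)))
    rw [Nat.cast_le]
    apply card_le_card
    intro n hn
    rw [mem_filter] at hn ⊢
    refine ⟨hn.1, ?_⟩
    rw [hn.2, Nat.cast_zero]
    have h3 : (3 : ℝ) ≤ X := by exact_mod_cast le_trans (le_max_right _ _) hX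
    have h4 : 0 < Real.log X := Real.log_pos (by linarith)
    positivity
  choose T hT using h1
  obtain ⟨U, hU⟩ : ∃ U : ℕ → ℕ, U = fun j => j + ∑ i ∈ range (j + 1), T i := ⟨_, rfl⟩
  have hU1 : ∀ j, j ≤ U j := fun j => by
    rw [hU]
    exact Nat.le_add_right _ _
  have hU2 : ∀ j, T j ≤ U j := fun j => by
    rw [hU]
    have : T j ≤ ∑ i ∈ range (j + 1), T i :=
      single_le_sum (f := T) (fun _ _ => Nat.zero_le _) (mem_range.mpr (Nat.lt_succ_self j))
    exact this.trans (Nat.le_add_left _ _)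
  have hU3 : Monotone U := by
    intro a b hab
    rw [hU]
    refine Nat.add_le_add hab (sum_le_sum_of_subset ?_)
    exact range_subset_range.mpr (by omega)
  -- z n is the largest j with U j ≤ n
  obtain ⟨z, hz⟩ : ∃ z : ℕ → ℕ, z = fun n => Nat.findGreatest (fun j => U j ≤ n) n := ⟨_, rfl⟩
  have hz1 : ∀ n j, U j ≤ n → j ≤ z n := by
    intro n j hj
    rw [hz]
    exact Nat.le_findGreatest ((hU1 j).trans hj) hj
  have hz2 : ∀ n, U 0 ≤ n → U (z n) ≤ n := by
    intro n hn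
    rw [hz]
    exact Nat.findGreatest_spec (P := fun j => U j ≤ n) (Nat.zero_le n) hn
  have hz3 : ∀ a b, a ≤ b → z a ≤ z b := by
    intro a b hab
    rw [hz]
    exact Nat.findGreatest_mono (fun j hj => le_trans hj hab) hab
  refine ⟨z, ?_, fun A => ?_⟩
  · rw [Filter.tendsto_atTop_atTop]
    intro j
    exact ⟨U j, fun n hn => hz1 n j hn⟩
  · refine ⟨max (U A) (max (U 0) 3), fun X hX => ?_⟩
    simp only [max_le_iff] at hX
    obtain ⟨hXA, hX0, hX3⟩ := hX
    have hj : A ≤ z X := hz1 X A hXA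
    have h3 := hT (z X) X ((hU2 _).trans (hz2 X hX0))
    have h4 : (3 : ℝ) ≤ X := by exact_mod_cast hX3
    have h5 : 1 ≤ Real.log X := by
      rw [Real.le_log_iff_exp_le (by linarith)]
      exact le_trans (le_of_lt Real.exp_one_lt_three) h4
    have h6 : X / (Real.log X) ^ (z X) ≤ X / (Real.log X) ^ A := by
      apply div_le_div_of_nonneg_left (by linarith) (by positivity)
      exact pow_le_pow_right₀ h5 hj
    refine le_trans ?_ (h3.trans h6)
    rw [Nat.cast_le]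
    apply card_le_card
    intro n hn
    rw [mem_filter] at hn ⊢
    refine ⟨hn.1, ?_⟩
    by_contra hc
    have h7 : 0 < count {b | Rough (z X) b} n := Nat.pos_of_ne_zero hc
    unfold count at h7
    obtain ⟨p, hp⟩ := card_pos.mp h7
    rw [mem_filter, mem_range] at hp
    obtain ⟨p1, p2, p3, p4⟩ := hp
    apply hn.2
    refine ⟨p, p1, p2, p4, fun q hq hd => ?_⟩
    have h8 : z X < q := p3 q hq hd
    exact lt_of_le_of_lt (hz3 n X (mem_Icc.mp hn.1).2) h8

end Pool.Agent.Lib.MP_5d7b92_nt.Shelf.IndexConditions
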