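import Mathlib
import Pool.Agent.Lib.MP_5d7b92_nt.Rankin

/-!
# Integers whose least admissible prime is unusually large (Erdős–Rankin)

There is `c > 0` such that for every large `X` some `n` with `X^{1/3} ≤ n ≤ X` has all its
admissible primes `p` (that is, `p`, `π(p)`, `2n - p` all prime) larger than
`c log X (log₂ X)^3 log₄ X / (log₃ X)^2`.
-/

namespace Pool.Agent.Results.MP_5d7b92_nt.LargeLeastAdmissiblePrime

/-- Extreme values of the least admissible prime. -/
theorem result : ∃ c : ℝ, 0 < c ∧ ∃ X₀ : ℕ, ∀ X : ℕ, X₀ ≤ X →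
    ∃ n : ℕ, n ≤ X ∧ X ≤ n ^ 3 ∧
      ∀ p : ℕ, p.Prime → (Nat.primeCounting p).Prime → (2 * n - p).Prime →
        c * Real.log X * (Real.log (Real.log X)) ^ 3 *
          Real.log (Real.log (Real.log (Real.log X))) /
            (Real.log (Real.log (Real.log X))) ^ 2 < p :=
  Pool.Agent.Lib.MP_5d7b92_nt.Rankin.main

end Pool.Agent.Results.MP_5d7b92_nt.LargeLeastAdmissiblePrime
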