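import Pool.Agent.Lib.SW.LG3

/-!
# A local-global principle for sums of a prime and an element of a sparse set

Let `S` be any set of integers up to `X`, and let `W` be the product of the primes up to
`log log X`.  For all but `ε X` integers `N` in `(X, 2X]` the number of `s ∈ S` with `N - s` prime
is asymptotic to `(W/φ(W)) #{s ∈ S : (N - s, W) = 1} / log X`, as soon as the local count
`#{s ∈ S : (N - s, W) = 1}` is at least `X / (log X)^K`; here `K` is arbitrary.

For the prime-indexed primes (and the iterated prime-indexed primes) this says that the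
assertion of the problem holds for almost all `n` without a local obstruction.

The proof uses the theorem of Siegel and Walfisz, Vinogradov's method with Vaughan's identity,
and a bound for the number of differences of elements of a sparse set which have many
prime factors `> log log X`.  All of it is proved here.
-/

open Finset

namespace Pool.Agent.Results.MP_5d7b92_nt.LocalGlobalPrinciple

/-- The product of the primes up to `log log X`. -/
noncomputable def W (X : ℕ) : ℕ :=
  ∏ p ∈ (range (⌊Real.log (Real.log X)⌋₊ + 1)).filter Nat.Prime, p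

/-- `W/φ(W)`. -/
noncomputable def ratio (X : ℕ) : ℝ := (W X : ℝ) / (Nat.totient (W X) : ℝ)

/-- The number of `s ∈ S` with `N - s` a prime. -/
def primeCount (S : Finset ℕ) (N : ℕ) : ℕ := (S.filter (fun s => s < N ∧ (N - s).Prime)).card

/-- The number of `s ∈ S`, `s < N`, with `N - s` coprime to `W`. -/
noncomputable def localCount (X : ℕ) (S : Finset ℕ) (N : ℕ) : ℕ :=
  (S.filter (fun s => s < N ∧ Nat.Coprime (N - s) (W X))).card

/-- The primes (`j = 0`), the prime-indexed primes (`j = 1`), and so on: `p` belongs to the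
`(j+1)`-st class if `p` is prime and `π(p)` belongs to the `j`-th class. -/
def Indexed : ℕ → ℕ → Prop
  | 0, p => p.Prime
  | j + 1, p => p.Prime ∧ Indexed j (Nat.primeCounting p)

open Pool.Agent.Lib.SW

theorem W_eq (X : ℕ) : W X = WX X := rfl

theorem ratio_eq (X : ℕ) : ratio X = cX X := rfl

theorem principle (K : ℕ) (ε : ℝ) (hε : 0 < ε) : ∃ X₀ : ℕ, ∀ X : ℕ, X₀ ≤ X →
    ∀ S : Finset ℕ, S ⊆ Icc 1 X →
      (((Ioc X (2 * X)).filter (fun N =>
        ε * ratio X * max (localCount X S N : ℝ) (X / (Real.log X) ^ K) / Real.log X <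
          |(primeCount S N : ℝ) - ratio X * localCount X S N / Real.log X|)).card : ℝ) ≤ ε * X :=
  local_global K ε hε

open Classical in
theorem result :
    -- the local-global principle, for all sets `S`
    (∀ (K : ℕ) (ε : ℝ), 0 < ε → ∃ X₀ : ℕ, ∀ X : ℕ, X₀ ≤ X → ∀ S : Finset ℕ, S ⊆ Icc 1 X →
      (((Ioc X (2 * X)).filter (fun N =>
        ε * ratio X * max (localCount X S N : ℝ) (X / (Real.log X) ^ K) / Real.log X <
          |(primeCount S N : ℝ) - ratio X * localCount X S N / Real.log X|)).card : ℝ) ≤ ε * X) ∧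
    -- in particular: the assertion for almost all `n` without a local obstruction
    (∀ (j K : ℕ) (ε : ℝ), 0 < ε → ∃ X₀ : ℕ, ∀ X : ℕ, X₀ ≤ X →
      (((Icc 1 X).filter (fun n => X < 2 * n ∧
        X / (Real.log X) ^ K ≤ (localCount X ((Icc 1 X).filter (Indexed j)) (2 * n) : ℝ) ∧
        ¬ ∃ p : ℕ, p < 2 * n ∧ Indexed j p ∧ (2 * n - p).Prime)).card : ℝ) ≤ ε * X) := by
  refine ⟨principle, ?_⟩
  intro j K ε hε
  obtain ⟨X₀, h⟩ := principle K (min ε (1 / 2)) (lt_min hε (by norm_num))
  refine ⟨max X₀ 3, fun X hX => ?_⟩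
  have h1 := h X ((le_max_left _ _).trans hX) ((Icc 1 X).filter (Indexed j))
    (Finset.filter_subset _ _)
  have hX3 : 3 ≤ X := (le_max_right _ _).trans hX
  have hXr : (3 : ℝ) ≤ X := by exact_mod_cast hX3
  have hlog : 0 < Real.log X := Real.log_pos (by linarith)
  refine le_trans ?_ (h1.trans (mul_le_mul_of_nonneg_right (min_le_left _ _) (Nat.cast_nonneg _)))
  norm_cast
  refine Finset.card_le_card_of_injOn (fun n => 2 * n) ?_ ?_
  · intro n hn
    simp only [Finset.coe_filter, Set.mem_ofPred_eq, Finset.mem_Icc] at hn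
    obtain ⟨⟨hn1, hn2⟩, hn3, hn4, hn5⟩ := hn
    simp only [Finset.coe_filter, Set.mem_ofPred_eq, Finset.mem_Ioc]
    refine ⟨⟨hn3, by omega⟩, ?_⟩
    have h0 : primeCount ((Icc 1 X).filter (Indexed j)) (2 * n) = 0 := by
      unfold primeCount
      rw [Finset.card_eq_zero, Finset.filter_eq_empty_iff]
      intro p hp hq
      exact hn5 ⟨p, hq.1, (Finset.mem_filter.mp hp).2, hq.2⟩
    set L := (localCount X ((Icc 1 X).filter (Indexed j)) (2 * n) : ℝ) with hL
    have hpos : 0 < X / (Real.log X) ^ K := by positivity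
    have hLpos : 0 < L := lt_of_lt_of_le hpos hn4
    have hr : 1 ≤ ratio X := one_le_cX X
    rw [h0, max_eq_left hn4, Nat.cast_zero, zero_sub, abs_neg,
      abs_of_nonneg (by positivity), div_lt_div_iff_of_pos_right hlog]
    have h5 : 0 < ratio X * L := by positivity
    have h6 : min ε (1 / 2) ≤ 1 / 2 := min_le_right _ _
    nlinarith
  · intro a _ b _ hab
    simpa using hab

end Pool.Agent.Results.MP_5d7b92_nt.LocalGlobalPrinciple
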