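import Pool.Agent.Lib.SW.LG4
import Pool.Agent.Lib.SW.GL.GL1

/-!
# A local-global principle for sums of a prime and an element of an arbitrary set

For every `K`, every large `X`, every set `S` of positive integers and all but `X / (log X)^K` of the
`N ≤ X`, the number of `s ∈ S` with `N - s` prime is what the residues of `S` modulo the primes up to a
power of `log X` predict, up to `X / (log X)^K`.  Hence the equation `N = p + q` with a prime-indexed
prime `p` and a prime `q` has a solution for all but `X / (log X)^K` of the `N ≤ X` which are not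
locally obstructed.
-/

open Finset

namespace Pool.Agent.Results.MP_5d7b92_nt.LogPowerPrinciple

/-- `n` has no prime factor `≤ z`. -/
def Free (z n : ℕ) : Prop := ∀ p : ℕ, p.Prime → p ≤ z → ¬ p ∣ n

/-- `V(z) = ∏_{p ≤ z} (1 - 1/p)`. -/
noncomputable def V (z : ℕ) : ℝ := ∏ p ∈ (Icc 1 z).filter Nat.Prime, (1 - 1 / (p : ℝ))

/-- The number of `s ∈ S`, `0 < s < N`, with `N - s` prime. -/
def actual (S : Finset ℕ) (N : ℕ) : ℕ :=
  (S.filter (fun s => 0 < s ∧ s < N ∧ (N - s).Prime)).card

open Classical in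
/-- The sum of `1 / (V(z) log (N - s))` over the `s ∈ S`, `0 < s ≤ N - 2`, for which `N - s` has no
prime factor `≤ z`. -/
noncomputable def expected (z : ℕ) (S : Finset ℕ) (N : ℕ) : ℝ :=
  ∑ s ∈ S.filter (fun s => 0 < s ∧ s + 2 ≤ N ∧ Free z (N - s)),
    1 / (V z * Real.log ((N - s : ℕ) : ℝ))

/-- The primes (`j = 0`), the prime-indexed primes (`j = 1`), and so on: `p` belongs to the
`(j+1)`-st class if `p` is prime and `π(p)` belongs to the `j`-th class. -/
def Indexed : ℕ → ℕ → Prop
  | 0, p => p.Prime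
  | j + 1, p => p.Prime ∧ Indexed j (Nat.primeCounting p)

open Pool.Agent.Lib.SW

theorem V_eq (z : ℕ) : V z = Vz z := (TS5_V z).symm

theorem free_iff (z n : ℕ) : Free z n ↔ Nat.Coprime n (primorial z) := by
  constructor
  · intro h
    by_contra hc
    obtain ⟨p, hp, h1, h2⟩ := Nat.Prime.not_coprime_iff_dvd.mp hc
    exact h p hp ((hp.dvd_primorial_iff).mp h2) h1
  · intro h p hp hz hd
    exact Nat.not_coprime_of_dvd_of_dvd hp.one_lt hd ((hp.dvd_primorial_iff).mpr hz) h

theorem expected_eq (z : ℕ) (S : Finset ℕ) (N : ℕ) :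
    expected z S N = Pool.Agent.Lib.SW.expected z S N := by
  unfold expected Pool.Agent.Lib.SW.expected
  refine Finset.sum_congr ?_ fun s _ => by rw [V_eq]
  ext s
  simp only [mem_filter, free_iff]

theorem Indexed_prime : ∀ j p : ℕ, Indexed j p → p.Prime
  | 0, _, h => h
  | _ + 1, _, h => h.1

theorem actual_eq (S : Finset ℕ) (N : ℕ) : actual S N = Pool.Agent.Lib.SW.actual S N := rfl

open Classical in
theorem result :
    ∀ K : ℕ, ∃ B₀ : ℕ, ∀ B : ℕ, B₀ ≤ B →
      (∃ X₀ : ℕ, ∀ X : ℕ, X₀ ≤ X → ∀ S : Finset ℕ,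
        (((Icc 1 X).filter (fun N => X / (Real.log X) ^ K <
          |(actual S N : ℝ) - expected ⌊(Real.log X) ^ B⌋₊ S N|)).card : ℝ) ≤
            X / (Real.log X) ^ K) ∧
      ∀ j : ℕ, ∃ X₀ : ℕ, ∀ X : ℕ, X₀ ≤ X →
        (((Icc 1 X).filter (fun N =>
          X / (Real.log X) ^ K ≤ ((((range N).filter (fun p => Indexed j p ∧
            Free ⌊(Real.log X) ^ B⌋₊ (N - p))).card : ℕ) : ℝ) ∧
          ¬ ∃ p : ℕ, p < N ∧ Indexed j p ∧ (N - p).Prime)).card : ℝ) ≤
            X / (Real.log X) ^ K := by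
  intro K
  obtain ⟨B₁, h1⟩ := log_power K
  obtain ⟨B₂, h2⟩ := log_power (K + 2)
  refine ⟨max B₁ B₂, fun B hB => ⟨?_, ?_⟩⟩
  · obtain ⟨X₀, h⟩ := h1 B ((le_max_left _ _).trans hB)
    refine ⟨X₀, fun X hX S => ?_⟩
    refine le_trans (le_of_eq ?_) (h X hX S)
    congr 2
    refine Finset.filter_congr fun N _ => ?_
    rw [expected_eq, actual_eq]
    rfl
  · intro j
    obtain ⟨X₀, h⟩ := h2 B ((le_max_right _ _).trans hB)
    obtain ⟨X₁, hX₁⟩ := Filter.eventually_atTop.1
      ((eventually_log_pow (K + 2) (1 / 2) (by norm_num)).and (eventually_log_ge 2))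
    refine ⟨max (max X₀ X₁) 1, fun X hX => ?_⟩
    obtain ⟨hpow, hL2⟩ := hX₁ X ((le_max_right _ _).trans ((le_max_left _ _).trans hX))
    have hX1 : (1 : ℝ) ≤ X := by exact_mod_cast (le_max_right _ _).trans hX
    have hmain := h X ((le_max_left _ _).trans ((le_max_left _ _).trans hX))
      ((range (X + 1)).filter (Indexed j))
    obtain ⟨L, hL⟩ : ∃ L : ℝ, L = Real.log X := ⟨_, rfl⟩
    obtain ⟨z, hz⟩ : ∃ z : ℕ, z = ⌊(Real.log X) ^ B⌋₊ := ⟨_, rfl⟩
    have hz' : zB B X = z := hz.symm
    rw [hz', ← hL] at hmain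
    rw [← hz, ← hL]
    rw [← hL] at hpow hL2
    have hL0 : 0 < L := by linarith
    have hLK : 0 < L ^ K := pow_pos hL0 K
    have hle : (X : ℝ) / L ^ (K + 2) ≤ X / L ^ K :=
      div_le_div_of_nonneg_left (by linarith) hLK (pow_le_pow_right₀ (by linarith) (by omega))
    refine le_trans (Nat.cast_le.2 (card_le_card ?_)) (hmain.trans hle)
    intro N hN
    obtain ⟨hN1, hN2, hN3⟩ := mem_filter.1 hN
    obtain ⟨hN4, hN5⟩ := mem_Icc.1 hN1
    refine mem_filter.2 ⟨hN1, ?_⟩
    have hact : Pool.Agent.Lib.SW.actual ((range (X + 1)).filter (Indexed j)) N = 0 := by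
      rw [← actual_eq]
      unfold actual
      rw [card_eq_zero, filter_eq_empty_iff]
      rintro s hs ⟨_, h2, h3⟩
      exact hN3 ⟨s, h2, (mem_filter.1 hs).2, h3⟩
    rw [hact, ← expected_eq, Nat.cast_zero, zero_sub, abs_neg]
    obtain ⟨T, hT⟩ : ∃ T : Finset ℕ, T = ((range (X + 1)).filter (Indexed j)).filter
      (fun s => 0 < s ∧ s + 2 ≤ N ∧ Free z (N - s)) := ⟨_, rfl⟩
    have hlow : (T.card : ℝ) * (1 / L) ≤ expected z ((range (X + 1)).filter (Indexed j)) N := by
      unfold expected
      rw [← hT, ← nsmul_eq_mul, ← sum_const]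
      refine sum_le_sum fun s hs => ?_
      rw [hT] at hs
      obtain ⟨_, h4, h5, _⟩ := mem_filter.1 hs
      have h6 : (2 : ℝ) ≤ ((N - s : ℕ) : ℝ) := by exact_mod_cast (show 2 ≤ N - s by omega)
      have h7 : 0 < Real.log ((N - s : ℕ) : ℝ) := Real.log_pos (by linarith)
      have h8 : Real.log ((N - s : ℕ) : ℝ) ≤ L := by
        rw [hL]
        refine Real.log_le_log (by linarith) ?_
        exact_mod_cast (show N - s ≤ X by omega)
      have hV0 : 0 < V z := by
        rw [V_eq]
        exact TS5_Vz_pos z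
      have hV1 : V z ≤ 1 := by
        unfold V
        refine prod_le_one (fun p hp => ?_) fun p hp => ?_
        · have h9 : (1 : ℝ) ≤ p := by exact_mod_cast (mem_filter.1 hp).2.one_lt.le
          have h10 : 1 / (p : ℝ) ≤ 1 := by
            rw [div_le_one (by linarith)]
            exact h9
          linarith
        · have h9 : (0 : ℝ) ≤ 1 / (p : ℝ) := by positivity
          linarith
      refine one_div_le_one_div_of_le (mul_pos hV0 h7) ?_
      calc V z * Real.log ((N - s : ℕ) : ℝ) ≤ 1 * Real.log ((N - s : ℕ) : ℝ) :=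
            mul_le_mul_of_nonneg_right hV1 h7.le
        _ ≤ L := by rw [one_mul]; exact h8
    refine lt_of_lt_of_le ?_ (hlow.trans (le_abs_self _))
    have hcard : (((range N).filter (fun p => Indexed j p ∧ Free z (N - p))).card : ℕ) ≤
        T.card + 1 := by
      have hsub : (range N).filter (fun p => Indexed j p ∧ Free z (N - p)) ⊆ insert (N - 1) T := by
        intro p hp
        obtain ⟨hp1, hp2, hp3⟩ := mem_filter.1 hp
        rw [mem_range] at hp1
        rw [mem_insert, hT, mem_filter, mem_filter, mem_range]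
        by_cases h9 : p = N - 1
        · exact Or.inl h9
        · refine Or.inr ⟨⟨by omega, hp2⟩, ?_, by omega, hp3⟩
          exact (Indexed_prime j p hp2).pos
      exact (card_le_card hsub).trans (card_insert_le _ _)
    have hcard' : (X : ℝ) / L ^ K ≤ T.card + 1 := by
      refine hN2.trans ?_
      exact_mod_cast hcard
    have h11 : (X : ℝ) / L ^ (K + 2) < (X / L ^ K - 1) * (1 / L) := by
      have e1 : L ^ (K + 2) = L ^ K * L * L := by ring
      rw [e1] at hpow ⊢
      have h12 : (X / L ^ K - 1) * (1 / L) - X / (L ^ K * L * L) =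
          (X * (L - 1) - L ^ K * L) / (L ^ K * L * L) := by
        field_simp
        ring
      have h13 : 0 < X * (L - 1) - L ^ K * L := by
        have h14 : L ^ K * L * 2 ≤ L ^ K * L * L := mul_le_mul_of_nonneg_left hL2 (by positivity)
        have h15 : (X : ℝ) * 1 ≤ X * (L - 1) := mul_le_mul_of_nonneg_left (by linarith) (by linarith)
        have h16 : 0 < L ^ K * L := by positivity
        linarith
      have h17 : 0 < (X * (L - 1) - L ^ K * L) / (L ^ K * L * L) := by positivity
      linarith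
    refine h11.trans_le (mul_le_mul_of_nonneg_right (by linarith) (by positivity))

end Pool.Agent.Results.MP_5d7b92_nt.LogPowerPrinciple
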