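import Pool.Agent.Lib.MP_5d7b92_nt.UA.CC
import Pool.Agent.Lib.MP_5d7b92_nt.UA.TS

/-!
# MP_5d7b92: almost all even numbers, up to a small cofactor
-/

open Finset

namespace Pool.Agent.Lib.MP_5d7b92_nt.Shelf.SmallCofactor

/-- iterated prime-indexed primes: `Indexed 0` = primes, `Indexed 1` = primes with prime index -/
def Indexed : ℕ → ℕ → Prop
  | 0, p => p.Prime
  | j + 1, p => p.Prime ∧ Indexed j (Nat.primeCounting p)

/-- the number of prime factors, counted with multiplicity -/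
def Omega (m : ℕ) : ℕ := m.primeFactorsList.length

/-- iterated logarithms -/
noncomputable def log2 (x : ℝ) : ℝ := Real.log (Real.log x)

noncomputable def log3 (x : ℝ) : ℝ := Real.log (Real.log (Real.log x))

noncomputable def log4 (x : ℝ) : ℝ := Real.log (Real.log (Real.log (Real.log x)))

/-- `d` is a small cofactor at the scale `x`: every prime factor of `d` is at most `log log x`,
`d ≤ (log log x)^C` and `d` has at most `(1 + ε) log log log log x` prime factors -/
def Small (C ε x : ℝ) (d : ℕ) : Prop :=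
  1 ≤ d ∧ (∀ p : ℕ, p.Prime → p ∣ d → (p : ℝ) ≤ log2 x) ∧ (d : ℝ) ≤ (log2 x) ^ C ∧
    (Omega d : ℝ) ≤ (1 + ε) * log4 x

/-- `N = s + d q` with a prime `q` and a small cofactor `d` -/
def Rep (C ε x : ℝ) (s N : ℕ) : Prop :=
  ∃ d q : ℕ, Small C ε x d ∧ q.Prime ∧ N = s + d * q

open Classical in
/-- the number of `s ∈ S` with `N = s + d q`, `q` prime, `d` small at the scale `x` -/
noncomputable def count (C ε x : ℝ) (S : Finset ℕ) (N : ℕ) : ℕ :=
  (S.filter (fun s => Rep C ε x s N)).card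

open Classical in
/-- the number of `p < 2n` in `P_j` with `2n = p + d q`, `q` prime, `d` small at the scale `n` -/
noncomputable def countP (j : ℕ) (C ε : ℝ) (n : ℕ) : ℕ :=
  ((range (2 * n)).filter (fun p => Indexed j p ∧ Rep C ε n p (2 * n))).card

open Pool.Agent.Lib.SW Pool.Agent.Lib.MP_5d7b92_nt.UA

private theorem indexed_iff (j p : ℕ) : Indexed j p ↔ PI j p := by
  induction j generalizing p with
  | zero => exact Iff.rfl
  | succ j ih =>
    show (p.Prime ∧ Indexed j (Nat.primeCounting p)) ↔ (p.Prime ∧ PI j (Nat.primeCounting p))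
    rw [ih]

private theorem small_iff_good (C ε : ℝ) (n d : ℕ) : Small C ε n d ↔ Good C ε n d := Iff.rfl

private theorem countP_eq (j : ℕ) (C ε : ℝ) (n : ℕ) : countP j C ε n = repC j C ε n := by
  classical
  unfold countP repC
  have h : (range (2 * n)).filter (fun p => Indexed j p ∧ Rep C ε n p (2 * n)) =
      (Icc 1 (2 * n)).filter (fun p => PI j p ∧ p < 2 * n ∧
        ∃ d q : ℕ, Good C ε n d ∧ q.Prime ∧ 2 * n = p + d * q) := by
    ext p
    rw [mem_filter, mem_filter, mem_range, mem_Icc]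
    constructor
    · rintro ⟨h1, h2, d, q, h3, h4, h5⟩
      have h6 : PI j p := (indexed_iff j p).1 h2
      have h7 := (PI_prime j p h6).one_lt
      exact ⟨⟨by omega, by omega⟩, h6, h1, d, q, h3, h4, h5⟩
    · rintro ⟨-, h2, h1, d, q, h3, h4, h5⟩
      exact ⟨h1, (indexed_iff j p).2 h2, d, q, h3, h4, h5⟩
  rw [h]

private theorem count_eq {C ε : ℝ} {w X : ℕ} (hw : w = ⌊Real.log (Real.log X)⌋₊)
    (h0 : 0 ≤ Real.log (Real.log X)) (hC : (Real.log (Real.log X)) ^ C ≤ Real.log X)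
    (S : Finset ℕ) (N : ℕ) : count C ε X S N = cnt (DA C ε w X) S N := by
  classical
  unfold count cnt
  have h : S.filter (fun s => Rep C ε X s N) =
      S.filter (fun s => s < N ∧ ∃ d ∈ DA C ε w X, d ∣ N - s ∧ ((N - s) / d).Prime) := by
    ext s
    rw [mem_filter, mem_filter]
    refine and_congr_right fun _ => ?_
    constructor
    · rintro ⟨d, q, ⟨h1, h2, h3, h4⟩, hq, hN⟩
      have hq0 := hq.pos
      have hdq : 0 < d * q := Nat.mul_pos h1 hq0
      have h5 : N - s = d * q := by omega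
      refine ⟨by omega, d, ?_, ?_, ?_⟩
      · unfold DA
        rw [mem_filter, mem_DM]
        refine ⟨⟨⟨h1, le_trans h3 hC⟩, fun p hp hpd => ?_⟩, h3, h4⟩
        rw [hw]
        exact Nat.le_floor (h2 p hp hpd)
      · rw [h5]
        exact dvd_mul_right _ _
      · rw [h5, Nat.mul_div_cancel_left _ h1]
        exact hq
    · rintro ⟨h1, d, hd, h2, h3⟩
      unfold DA at hd
      rw [mem_filter, mem_DM] at hd
      obtain ⟨⟨⟨h4, h5⟩, h6⟩, h7, h8⟩ := hd
      refine ⟨d, (N - s) / d, ⟨h4, fun p hp hpd => ?_, h7, h8⟩, h3, ?_⟩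
      · have h9 := h6 p hp hpd
        rw [hw] at h9
        exact (Nat.le_floor_iff h0).1 h9
      · rw [Nat.mul_div_cancel' h2]
        omega
  rw [h]

theorem result :
    (∀ (K : ℕ) (ε : ℝ), 0 < ε → ∃ C : ℝ, 0 < C ∧ ∃ X₀ : ℕ, ∀ X : ℕ, X₀ ≤ X →
      ∀ S : Finset ℕ, S ⊆ Icc 1 X → X / (Real.log X) ^ K ≤ (S.card : ℝ) →
      (((Icc 1 (2 * X)).filter (fun N => ε * (log3 X * S.card / Real.log X) <
        |(count C ε X S N : ℝ) - Real.exp Real.eulerMascheroniConstant *
          (log3 X * (S.filter (fun s => s < N)).card / Real.log X)|)).card : ℝ) ≤ ε * X) ∧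
    (∀ (j : ℕ) (ε : ℝ), 0 < ε → ∃ C : ℝ, 0 < C ∧ ∃ X₀ : ℕ, ∀ X : ℕ, X₀ ≤ X →
      (((Icc 1 X).filter (fun n : ℕ => ε * (log3 n * (2 * n / (Real.log n) ^ (j + 2))) <
        |(countP j C ε n : ℝ) - Real.exp Real.eulerMascheroniConstant *
          (log3 n * (2 * n / (Real.log n) ^ (j + 2)))|)).card : ℝ) ≤ ε * X) ∧
    (∀ ε : ℝ, 0 < ε → ∃ X₀ : ℕ, ∀ X : ℕ, X₀ ≤ X → ∃ S : Finset ℕ, S ⊆ Icc 1 X ∧
      (∀ s ∈ S, s.Prime) ∧ X / (Real.log X) ^ 2 ≤ (S.card : ℝ) ∧
      (((Icc 1 (2 * X)).filter (fun N => ∃ s ∈ S, s < N ∧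
        (Omega (N - s) : ℝ) < (1 - ε) * log4 X)).card : ℝ) ≤ ε * X) := by
  classical
  refine ⟨?_, ?_, ?_⟩
  · intro K ε hε
    obtain ⟨C, hC, X₁, hX₁⟩ := theoremA K ε hε
    have hyC : ∀ᶠ X : ℕ in Filter.atTop, (Real.log (Real.log X)) ^ C ≤ Real.log X := by
      have h1 := (isLittleO_log_rpow_rpow_atTop C one_pos).bound one_pos
      have h2 : Filter.Tendsto (fun X : ℕ => Real.log (X : ℝ)) Filter.atTop Filter.atTop :=
        Real.tendsto_log_atTop.comp tendsto_natCast_atTop_atTop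
      filter_upwards [h2.eventually h1, eventually_log_ge 1] with X hX1 hX2
      rw [Real.rpow_one, one_mul] at hX1
      have h3 : 0 ≤ Real.log (Real.log (X : ℝ)) := Real.log_nonneg hX2
      rw [Real.norm_of_nonneg (Real.rpow_nonneg h3 _), Real.norm_of_nonneg (by linarith)] at hX1
      exact hX1
    obtain ⟨X₂, hX₂⟩ := Filter.eventually_atTop.1 (hyC.and (eventually_log_ge 1))
    refine ⟨C, hC, max X₁ X₂, fun X hX S hS hK => ?_⟩
    obtain ⟨k1, k2⟩ := hX₂ X ((le_max_right _ _).trans hX)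
    have h0 : 0 ≤ Real.log (Real.log (X : ℝ)) := Real.log_nonneg k2
    obtain ⟨w, hw⟩ : ∃ w, w = ⌊Real.log (Real.log (X : ℝ))⌋₊ := ⟨_, rfl⟩
    have hw1 : |(w : ℝ) - Real.log (Real.log X)| ≤ 3 / 2 := by
      have h1 := Nat.floor_le h0
      have h2 := Nat.lt_floor_add_one (Real.log (Real.log (X : ℝ)))
      rw [← hw] at h1 h2
      rw [abs_le]
      constructor
      · linarith
      · linarith
    obtain ⟨B, hB, hB'⟩ := hX₁ X ((le_max_left _ _).trans hX) w hw1 S hS hK
    refine le_trans (Nat.cast_le.2 (card_le_card fun N hN => ?_)) hB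
    obtain ⟨hN1, hN2⟩ := mem_filter.1 hN
    by_contra hNB
    have h1 := hB' N hN1 hNB (DA C ε w X) (Subset.refl _) (filter_subset _ _)
    rw [count_eq hw h0 k1] at hN2
    unfold log3 at hN2
    unfold below at h1
    have e1 : Real.exp Real.eulerMascheroniConstant * Real.log (Real.log (Real.log X)) *
        ((S.filter (fun s => s < N)).card : ℝ) / Real.log X =
        Real.exp Real.eulerMascheroniConstant * (Real.log (Real.log (Real.log X)) *
        ((S.filter (fun s => s < N)).card : ℝ) / Real.log X) := by ring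
    have e2 : ε * Real.log (Real.log (Real.log X)) * (S.card : ℝ) / Real.log X =
        ε * (Real.log (Real.log (Real.log X)) * (S.card : ℝ) / Real.log X) := by ring
    rw [e1, e2] at h1
    exact absurd hN2 (not_lt.2 h1)
  · intro j ε hε
    obtain ⟨C, hC, X₀, hX₀⟩ := corollary j ε hε
    refine ⟨C, hC, X₀, fun X hX => ?_⟩
    refine le_trans (Nat.cast_le.2 (card_le_card fun n hn => ?_)) (hX₀ X hX)
    obtain ⟨hn1, hn2⟩ := mem_filter.1 hn
    rw [countP_eq] at hn2
    refine mem_filter.2 ⟨hn1, ?_⟩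
    rw [mul_assoc]
    exact hn2
  · intro ε hε
    exact theoremB ε hε

end Pool.Agent.Lib.MP_5d7b92_nt.Shelf.SmallCofactor
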