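import Pool.Agent.Lib.MP_5d7b92_nt.SS.PJ
import Pool.Agent.Lib.MP_5d7b92_nt.SS.SH

/-!
# MP_5d7b92: the small scale theorem, uniform in the cofactor
-/

open Finset

namespace Pool.Agent.Lib.MP_5d7b92_nt.Shelf.SmallScale

/-- iterated prime-indexed primes: `Indexed 0` = primes, `Indexed 1` = primes with prime index -/
def Indexed : ℕ → ℕ → Prop
  | 0, p => p.Prime
  | j + 1, p => p.Prime ∧ Indexed j (Nat.primeCounting p)

/-- iterated logarithms -/
noncomputable def log2 (x : ℝ) : ℝ := Real.log (Real.log x)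

noncomputable def log3 (x : ℝ) : ℝ := Real.log (Real.log (Real.log x))

/-- `2 n = b + d q` with a prime `q` and an odd cofactor `d ≤ D` -/
def Rep (D n b : ℕ) : Prop := ∃ d q : ℕ, d % 2 = 1 ∧ d ≤ D ∧ q.Prime ∧ 2 * n = b + d * q

open Classical in
/-- the number of `b ∈ Q` with `2 n = b + d q`, `q` prime, `d ≤ D` odd -/
noncomputable def count (D : ℕ) (Q : Finset ℕ) (n : ℕ) : ℕ := (Q.filter (fun b => Rep D n b)).card

open Classical in
/-- the `p ≤ Y` in `P_j` -/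
noncomputable def P (j Y : ℕ) : Finset ℕ := (Icc 1 Y).filter (fun p => Indexed j p)

open Pool.Agent.Lib.SW Pool.Agent.Lib.MP_5d7b92_nt.SS

private theorem indexed_iff (j p : ℕ) : Indexed j p ↔ PI j p := by
  induction j generalizing p with
  | zero => exact Iff.rfl
  | succ j ih =>
    show (p.Prime ∧ Indexed j (Nat.primeCounting p)) ↔ (p.Prime ∧ PI j (Nat.primeCounting p))
    rw [ih]

private theorem P_eq (j Y : ℕ) : P j Y = (Icc 1 Y).filter (PI j) := by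
  classical
  unfold P
  ext p
  rw [mem_filter, mem_filter, indexed_iff]

private theorem rn_le (D : ℕ) (Q : Finset ℕ) (n : ℕ) : rn D Q n ≤ count D Q n := by
  classical
  unfold rn count
  apply card_le_card
  intro b hb
  rw [mem_filter] at hb ⊢
  obtain ⟨h1, d, hd, q, hq, -, h2⟩ := hb
  rw [mem_OD] at hd
  exact ⟨h1, d, q, hd.2, hd.1.2, hq, h2⟩

theorem result :
    (∀ K : ℕ, ∃ c : ℝ, 0 < c ∧ ∃ Y₀ : ℕ, ∀ X Y D : ℕ, Y₀ ≤ Y → Y ≤ X → 1 ≤ D →
      (D : ℝ) ≤ log2 Y → ∀ Q : Finset ℕ, Q ⊆ Icc 1 Y → (∀ b ∈ Q, b % 2 = 1) →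
      Y / (Real.log Y) ^ K ≤ (Q.card : ℝ) → Real.log X ≤ (Q.card : ℝ) →
      c * (1 + Real.log D) * X / log3 Y ≤
        (((Icc 1 X).filter (fun n => c * (1 + Real.log D) * Q.card / Real.log X ≤
          (count D Q n : ℝ))).card : ℝ)) ∧
    (∀ j : ℕ, ∃ c C : ℝ, 0 < c ∧ 0 < C ∧ ∃ X₀ : ℕ, ∀ X Y D : ℕ, X₀ ≤ X → Y ≤ X →
      C * Real.log X * (log2 X) ^ (j + 1) ≤ Y → 1 ≤ D → (D : ℝ) ≤ log2 Y →
      c * (1 + Real.log D) * X / log3 Y ≤
        (((Icc 1 X).filter (fun n => c * (1 + Real.log D) * Y /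
          ((Real.log Y) ^ (j + 1) * Real.log X) ≤ (count D (P j Y) n : ℝ))).card : ℝ)) ∧
    (∃ C : ℝ, 0 < C ∧ ∃ Y₀ : ℕ, ∀ Y : ℕ, Y₀ ≤ Y → ∃ Q : Finset ℕ,
      Q ⊆ Icc 1 Y ∧ (∀ b ∈ Q, b.Prime ∧ b % 2 = 1) ∧ Y / (Real.log Y) ^ 2 ≤ (Q.card : ℝ) ∧
      ∀ X D : ℕ, Y ≤ X → 1 ≤ D → (D : ℝ) ≤ log2 Y →
        (((Icc 1 X).filter (fun n => 1 ≤ count D Q n)).card : ℝ) ≤
          C * (1 + Real.log D) * X / log3 Y) := by
  classical
  have hmono : ∀ D : ℕ, 1 ≤ D → 1 + Real.log D ≤ 1 + Real.log (D + 1) := by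
    intro D hD
    have h1 : (1 : ℝ) ≤ D := by exact_mod_cast hD
    have := Real.log_le_log (by linarith : (0 : ℝ) < D) (by linarith : (D : ℝ) ≤ D + 1)
    linarith
  have hup : ∀ D : ℕ, 1 ≤ D → 1 + Real.log (D + 1) ≤ 2 * (1 + Real.log D) := by
    intro D hD
    have h1 : (1 : ℝ) ≤ D := by exact_mod_cast hD
    have h2 := Real.log_le_log (by linarith : (0 : ℝ) < (D : ℝ) + 1)
      (by linarith : (D : ℝ) + 1 ≤ 2 * D)
    rw [Real.log_mul two_ne_zero (by linarith)] at h2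
    have h3 := Real.log_two_lt_d9
    have h4 := Real.log_nonneg h1
    linarith
  have hnn : ∀ D : ℕ, 1 ≤ D → 0 ≤ 1 + Real.log D := by
    intro D hD
    have h1 : (1 : ℝ) ≤ D := by exact_mod_cast hD
    linarith [Real.log_nonneg h1]
  have hl3 : ∃ Y₁ : ℕ, ∀ Y : ℕ, Y₁ ≤ Y → 0 < log3 Y ∧ 0 < Real.log Y := by
    have t1 : Filter.Tendsto (fun X : ℕ => Real.log (X : ℝ)) Filter.atTop Filter.atTop :=
      Real.tendsto_log_atTop.comp tendsto_natCast_atTop_atTop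
    have t3 : Filter.Tendsto (fun X : ℕ => log3 (X : ℝ)) Filter.atTop Filter.atTop :=
      Real.tendsto_log_atTop.comp (Real.tendsto_log_atTop.comp t1)
    exact Filter.eventually_atTop.mp ((t3.eventually_gt_atTop 0).and (t1.eventually_gt_atTop 0))
  obtain ⟨Y₁, hY₁⟩ := hl3
  refine ⟨fun K => ?_, fun j => ?_, ?_⟩
  · obtain ⟨c, hc, Y₀, h⟩ := small_scale K
    refine ⟨c, hc, max Y₀ Y₁, fun X Y D hY hYX hD1 hD Q hQ hQo hQ1 hQ2 => ?_⟩
    obtain ⟨h3, hlY⟩ := hY₁ Y (le_trans (le_max_right _ _) hY)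
    have hlX : 0 ≤ Real.log X := Real.log_natCast_nonneg X
    refine le_trans ?_ ((h X Y D (le_trans (le_max_left _ _) hY) hYX hD1 hD Q hQ hQo hQ1 hQ2).trans ?_)
    · apply div_le_div_of_nonneg_right _ h3.le
      have := hmono D hD1
      gcongr
    · rw [Nat.cast_le]
      apply card_le_card
      intro n hn
      rw [mem_filter] at hn ⊢
      refine ⟨hn.1, le_trans ?_ (hn.2.trans (by exact_mod_cast rn_le D Q n))⟩
      apply div_le_div_of_nonneg_right _ hlX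
      have := hmono D hD1
      gcongr
  · obtain ⟨c, C, hc, hC, X₀, h⟩ := small_scale_PI j
    have hX : ∃ X₁ : ℕ, ∀ X : ℕ, X₁ ≤ X → (Y₁ : ℝ) ≤ C * Real.log X * (log2 X) ^ (j + 1) := by
      have t1 : Filter.Tendsto (fun X : ℕ => Real.log (X : ℝ)) Filter.atTop Filter.atTop :=
        Real.tendsto_log_atTop.comp tendsto_natCast_atTop_atTop
      have t2 : Filter.Tendsto (fun X : ℕ => log2 (X : ℝ)) Filter.atTop Filter.atTop :=
        Real.tendsto_log_atTop.comp t1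
      have h5 := ((t1.const_mul_atTop hC).eventually_ge_atTop (Y₁ : ℝ)).and
        (t2.eventually_ge_atTop 1)
      obtain ⟨X₁, hX₁⟩ := Filter.eventually_atTop.mp h5
      refine ⟨X₁, fun X hX => ?_⟩
      obtain ⟨h6, h7⟩ := hX₁ X hX
      have h8 : (1 : ℝ) ≤ (log2 X) ^ (j + 1) := one_le_pow₀ h7
      have h9 : (0 : ℝ) ≤ C * Real.log X := le_trans (Nat.cast_nonneg _) h6
      nlinarith
    obtain ⟨X₁, hX₁⟩ := hX
    refine ⟨c, C, hc, hC, max X₀ X₁, fun X Y D hX hYX hY hD1 hD => ?_⟩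
    have h5 : (Y₁ : ℝ) ≤ Y := (hX₁ X (le_trans (le_max_right _ _) hX)).trans hY
    obtain ⟨h3, hlY⟩ := hY₁ Y (by exact_mod_cast h5)
    have hlX : 0 ≤ Real.log X := Real.log_natCast_nonneg X
    refine le_trans ?_ ((h X Y D (le_trans (le_max_left _ _) hX) hYX hY hD1 hD).trans ?_)
    · apply div_le_div_of_nonneg_right _ h3.le
      have := hmono D hD1
      gcongr
    · rw [Nat.cast_le]
      apply card_le_card
      intro n hn
      rw [mem_filter] at hn ⊢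
      rw [P_eq]
      refine ⟨hn.1, le_trans ?_ (hn.2.trans (by exact_mod_cast rn_le D _ n))⟩
      apply div_le_div_of_nonneg_right _ (by positivity)
      have := hmono D hD1
      gcongr
  · obtain ⟨C, hC, Y₀, h⟩ := small_scale_sharp
    refine ⟨2 * C, by positivity, max Y₀ Y₁, fun Y hY => ?_⟩
    obtain ⟨h3, hlY⟩ := hY₁ Y (le_trans (le_max_right _ _) hY)
    obtain ⟨Q, h4, h5, h6, h7⟩ := h Y (le_trans (le_max_left _ _) hY)
    refine ⟨Q, h4, h5, h6, fun X D hYX hD1 hD => ?_⟩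
    refine le_trans ?_ ((h7 X D hYX hD1 hD).trans ?_)
    · rw [Nat.cast_le]
      apply card_le_card
      intro n hn
      simp only [mem_filter] at hn ⊢
      refine ⟨hn.1, ?_⟩
      have h8 : 0 < (Q.filter (fun b => Rep D n b)).card := hn.2
      obtain ⟨b, hb⟩ := card_pos.mp h8
      rw [mem_filter] at hb
      obtain ⟨hbQ, d, q, hd1, hd2, hq, hn2⟩ := hb
      exact ⟨b, hbQ, d, mem_Icc.2 ⟨by omega, hd2⟩, q, hq, hn2⟩
    · apply div_le_div_of_nonneg_right _ h3.le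
      have := hup D hD1
      calc C * (1 + Real.log (D + 1)) * X ≤ C * (2 * (1 + Real.log D)) * X := by gcongr
        _ = 2 * C * (1 + Real.log D) * X := by ring

end Pool.Agent.Lib.MP_5d7b92_nt.Shelf.SmallScale
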